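import Mathlib

/-!
An inductive algebra of number-valued functions of an input word and finitely many numerical
arguments: closed under composition and simultaneous bounded iteration. Every function in it is
polynomially bounded; its `0/1`-valued members are exactly the log-space predicates.
-/

set_option autoImplicit false

namespace Pool.Agent.Helper36.LS

/-- The states of a simultaneous iteration with cut-off `b`. -/
def iterSt {κ : Type} (z : κ → ℕ) (s : (κ → ℕ) → κ → ℕ) (b : ℕ) : ℕ → κ → ℕ
  | 0 => fun k => min (z k) b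
  | t + 1 => fun k => min (s (iterSt z s b t) k) b

/-- The function algebra. -/
inductive LF {σ : Type} : {ι : Type} → (List σ → (ι → ℕ) → ℕ) → Prop
  | proj {ι : Type} (i : ι) : LF (fun _ x => x i)
  | zero {ι : Type} : LF (fun _ (_ : ι → ℕ) => 0)
  | succ {ι : Type} {f : List σ → (ι → ℕ) → ℕ} : LF f → LF (fun w x => f w x + 1)
  | pred {ι : Type} {f : List σ → (ι → ℕ) → ℕ} : LF f → LF (fun w x => f w x - 1)
  | len {ι : Type} : LF (fun w (_ : ι → ℕ) => w.length)
  | letter {ι : Type} (p : σ → Bool) {f : List σ → (ι → ℕ) → ℕ} : LF f →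
      LF (fun w x => if (w[f w x]?).any p then 1 else 0)
  | ite {ι : Type} {c f g : List σ → (ι → ℕ) → ℕ} : LF c → LF f → LF g →
      LF (fun w x => if c w x = 0 then f w x else g w x)
  | comp {ι κ : Type} [Finite κ] {f : List σ → (κ → ℕ) → ℕ} {g : κ → List σ → (ι → ℕ) → ℕ} :
      LF f → (∀ k, LF (g k)) → LF (fun w x => f w (fun k => g k w x))
  | iter {ι κ : Type} [Finite κ] {s : κ → List σ → (κ ⊕ ι → ℕ) → ℕ}
      {z : κ → List σ → (ι → ℕ) → ℕ} {n b : List σ → (ι → ℕ) → ℕ} :
      (∀ k, LF (s k)) → (∀ k, LF (z k)) → LF n → LF b → ∀ k : κ,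
      LF (fun w x => iterSt (fun j => z j w x) (fun y j => s j w (Sum.elim y x)) (b w x) (n w x) k)

end Pool.Agent.Helper36.LS
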