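import Mathlib

/-!
Deterministic Turing machines with a two-way read-only input tape and one work tape, logarithmic
space, and a small structured language compiled to such machines.
-/

set_option autoImplicit false

namespace Pool.Agent.Helper36.LS

/-- Symbols read by the input head: the two end markers and the letters. -/
inductive InSym (σ : Type) : Type
  | left : InSym σ
  | right : InSym σ
  | letter (a : σ) : InSym σ

/-- Head moves. -/
inductive Dir : Type
  | L | S | R

/-- A deterministic Turing machine with a read-only two-way input tape (with end markers) and one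
work tape. `step q x g` is either `Sum.inl b` (halt with answer `b`) or
`Sum.inr (q', d, g', e)`: new state `q'`, input head move `d`, written symbol `g'`,
work head move `e`. -/
structure LTM (σ : Type) where
  Q : Type
  Γ : Type
  finQ : Finite Q
  finΓ : Finite Γ
  blank : Γ
  start : Q
  step : Q → InSym σ → Γ → Bool ⊕ (Q × Dir × Γ × Dir)

/-- Memory: input head position (`0` and `w.length + 1` are the end markers), work tape contents,
work head position. -/
structure Mem (Γ : Type) where
  i : ℕ
  tape : ℕ → Γ
  h : ℕ

/-- The symbol on cell `i` of the input tape `⊢ w ⊣`. -/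
def inSym {σ : Type} (w : List σ) : ℕ → InSym σ
  | 0 => InSym.left
  | i + 1 => match w[i]? with
    | some a => InSym.letter a
    | none => InSym.right

/-- Move of the input head, which never leaves `⊢ w ⊣`. -/
def moveIn (n i : ℕ) : Dir → ℕ
  | Dir.L => i - 1
  | Dir.S => i
  | Dir.R => min (i + 1) (n + 1)

/-- Move of the work head (the work tape has a leftmost cell `0`). -/
def moveWk (h : ℕ) : Dir → ℕ
  | Dir.L => h - 1
  | Dir.S => h
  | Dir.R => h + 1

/-- Effect of one action on the memory. -/
def Mem.apply {σ Γ : Type} (w : List σ) (m : Mem Γ) (a : Dir × Γ × Dir) : Mem Γ where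
  i := moveIn w.length m.i a.1
  tape := Function.update m.tape m.h a.2.1
  h := moveWk m.h a.2.2

namespace LTM

variable {σ : Type} (M : LTM σ)

/-- One step of the machine on input `w`: either an answer or the next configuration. -/
def next (w : List σ) (c : M.Q × Mem M.Γ) : Bool ⊕ (M.Q × Mem M.Γ) :=
  match M.step c.1 (inSym w c.2.i) (c.2.tape c.2.h) with
  | Sum.inl b => Sum.inl b
  | Sum.inr (q, a) => Sum.inr (q, c.2.apply w a)

/-- The initial configuration: start state, heads on the left ends, blank work tape. -/
def init : M.Q × Mem M.Γ := (M.start, ⟨0, fun _ => M.blank, 0⟩)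

/-- Configurations reachable from `c` on input `w`. -/
def Reaches (w : List σ) : M.Q × Mem M.Γ → M.Q × Mem M.Γ → Prop :=
  Relation.ReflTransGen fun c c' => M.next w c = Sum.inr c'

/-- `M` halts on every input, with answer `true` exactly on the words of `A`. -/
def Decides (A : Language σ) : Prop :=
  ∀ w, ∃ c b, M.Reaches w M.init c ∧ M.next w c = Sum.inl b ∧ (b = true ↔ w ∈ A)

/-- `M` uses `O(log n)` cells of its work tape on inputs of length `n`. -/
def LogSpace : Prop :=
  ∃ C : ℕ, ∀ w c, M.Reaches w M.init c → c.2.h < C * Nat.log 2 (w.length + 2)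

end LTM

/-- The class `L`: languages decided by a deterministic Turing machine with a two-way read-only
input tape and `O(log n)` cells of work tape. -/
def InL {σ : Type} (A : Language σ) : Prop :=
  ∃ M : LTM σ, M.Decides A ∧ M.LogSpace

/-! ### Structured programs over the memory -/

/-- Structured programs. -/
inductive SP (σ Γ : Type) : Type
  | act (f : InSym σ → Γ → Dir × Γ × Dir)
  | seq (p q : SP σ Γ)
  | ite (t : InSym σ → Γ → Bool) (p q : SP σ Γ)
  | whl (t : InSym σ → Γ → Bool) (p : SP σ Γ)

namespace SP

variable {σ Γ : Type}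

/-- Control states of a program. -/
def Q : SP σ Γ → Type
  | act _ => Unit
  | seq p q => p.Q ⊕ q.Q
  | ite _ p q => Option (p.Q ⊕ q.Q)
  | whl _ p => Option p.Q

/-- The entry state. -/
def start : (p : SP σ Γ) → p.Q
  | act _ => ()
  | seq p _ => Sum.inl p.start
  | ite _ _ _ => none
  | whl _ _ => none

/-- Transition function; `none` is the exit. -/
def δ : (p : SP σ Γ) → p.Q → InSym σ → Γ → Option p.Q × (Dir × Γ × Dir)
  | act f, _, x, g => (none, f x g)
  | seq p _, Sum.inl a, x, g =>
      match p.δ a x g with
      | (some a', m) => (some (Sum.inl a'), m)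
      | (none, m) => (some (Sum.inr (start _)), m)
  | seq _ q, Sum.inr b, x, g =>
      match q.δ b x g with
      | (some b', m) => (some (Sum.inr b'), m)
      | (none, m) => (none, m)
  | ite t p q, none, x, g =>
      (some (some (if t x g then Sum.inl p.start else Sum.inr q.start)), (Dir.S, g, Dir.S))
  | ite _ p _, some (Sum.inl a), x, g =>
      match p.δ a x g with
      | (some a', m) => (some (some (Sum.inl a')), m)
      | (none, m) => (none, m)
  | ite _ _ q, some (Sum.inr b), x, g =>
      match q.δ b x g with
      | (some b', m) => (some (some (Sum.inr b')), m)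
      | (none, m) => (none, m)
  | whl t p, none, x, g =>
      (if t x g then some (some p.start) else none, (Dir.S, g, Dir.S))
  | whl _ p, some a, x, g =>
      match p.δ a x g with
      | (some a', m) => (some (some a'), m)
      | (none, m) => (some none, m)

theorem finite_Q : (p : SP σ Γ) → Finite p.Q
  | act _ => inferInstanceAs (Finite Unit)
  | seq p q => by
      have := p.finite_Q; have := q.finite_Q
      exact inferInstanceAs (Finite (p.Q ⊕ q.Q))
  | ite _ p q => by
      have := p.finite_Q; have := q.finite_Q
      exact inferInstanceAs (Finite (Option (p.Q ⊕ q.Q)))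
  | whl _ p => by
      have := p.finite_Q
      exact inferInstanceAs (Finite (Option p.Q))

/-- Big-step semantics, all intermediate memories having their work head below `H`. -/
inductive Ex (w : List σ) (H : ℕ) : SP σ Γ → Mem Γ → Mem Γ → Prop
  | act (f : InSym σ → Γ → Dir × Γ × Dir) (m : Mem Γ) (h1 : m.h < H)
      (h2 : (m.apply w (f (inSym w m.i) (m.tape m.h))).h < H) :
      Ex w H (SP.act f) m (m.apply w (f (inSym w m.i) (m.tape m.h)))
  | seq {p q : SP σ Γ} {m m1 m2 : Mem Γ} : Ex w H p m m1 → Ex w H q m1 m2 →
      Ex w H (SP.seq p q) m m2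
  | ite_true {t : InSym σ → Γ → Bool} {p q : SP σ Γ} {m m1 : Mem Γ} :
      t (inSym w m.i) (m.tape m.h) = true → Ex w H p m m1 → Ex w H (SP.ite t p q) m m1
  | ite_false {t : InSym σ → Γ → Bool} {p q : SP σ Γ} {m m1 : Mem Γ} :
      t (inSym w m.i) (m.tape m.h) = false → Ex w H q m m1 → Ex w H (SP.ite t p q) m m1
  | whl_false {t : InSym σ → Γ → Bool} {p : SP σ Γ} {m : Mem Γ} (h1 : m.h < H) :
      t (inSym w m.i) (m.tape m.h) = false → Ex w H (SP.whl t p) m m
  | whl_true {t : InSym σ → Γ → Bool} {p : SP σ Γ} {m m1 m2 : Mem Γ} :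
      t (inSym w m.i) (m.tape m.h) = true → Ex w H p m m1 → Ex w H (SP.whl t p) m1 m2 →
      Ex w H (SP.whl t p) m m2

theorem Ex.head_lt {w : List σ} {H : ℕ} {p : SP σ Γ} {m m' : Mem Γ} (h : Ex w H p m m') :
    m.h < H ∧ m'.h < H := by
  induction h with
  | act f m h1 h2 => exact ⟨h1, h2⟩
  | seq _ _ ih1 ih2 => exact ⟨ih1.1, ih2.2⟩
  | ite_true _ _ ih => exact ih
  | ite_false _ _ ih => exact ih
  | whl_false h1 _ => exact ⟨h1, h1⟩
  | whl_true _ _ _ ih1 ih2 => exact ⟨ih1.1, ih2.2⟩

/-- Small-step relation of the flow chart, `none` being the exit state. -/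
def Step (w : List σ) (H : ℕ) (p : SP σ Γ) (c c' : Option p.Q × Mem Γ) : Prop :=
  c.2.h < H ∧ c'.2.h < H ∧ ∃ a, c.1 = some a ∧
    c' = ((p.δ a (inSym w c.2.i) (c.2.tape c.2.h)).1,
      c.2.apply w (p.δ a (inSym w c.2.i) (c.2.tape c.2.h)).2)

theorem apply_nop (w : List σ) (m : Mem Γ) : m.apply w (Dir.S, m.tape m.h, Dir.S) = m := by
  cases m
  simp [Mem.apply, moveIn, moveWk]

/-- Lifting runs through an embedding of control states. -/
theorem lift_run {w : List σ} {H : ℕ} {p : SP σ Γ} {X : Type}
    {S : X × Mem Γ → X × Mem Γ → Prop} (e : Option p.Q → X)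
    (hS : ∀ (a : p.Q) (m : Mem Γ), m.h < H →
      (m.apply w (p.δ a (inSym w m.i) (m.tape m.h)).2).h < H →
      S (e (some a), m) (e (p.δ a (inSym w m.i) (m.tape m.h)).1,
        m.apply w (p.δ a (inSym w m.i) (m.tape m.h)).2))
    {c c' : Option p.Q × Mem Γ} (h : Relation.ReflTransGen (Step w H p) c c') :
    Relation.ReflTransGen S (e c.1, c.2) (e c'.1, c'.2) := by
  induction h with
  | refl => exact Relation.ReflTransGen.refl
  | @tail b c _ hs ih =>
    obtain ⟨h1, h2, a, ha, hc⟩ := hs
    refine ih.tail ?_
    rw [hc] at h2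
    have := hS a b.2 h1 h2
    rw [hc, ha]
    exact this

theorem Ex.run {w : List σ} {H : ℕ} {p : SP σ Γ} {m m' : Mem Γ} (h : Ex w H p m m') :
    Relation.ReflTransGen (Step w H p) (some p.start, m) (none, m') := by
  induction h with
  | act f m h1 h2 =>
    refine Relation.ReflTransGen.single ⟨h1, h2, (), rfl, rfl⟩
  | @seq p q m m1 m2 h1 h2 ih1 ih2 =>
    refine Relation.ReflTransGen.trans
      (lift_run (X := Option (SP.seq p q).Q) (S := Step w H (SP.seq p q))
        (e := fun o => match o with
          | some a => some (Sum.inl a)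
          | none => some (Sum.inr q.start)) ?_ ih1)
      (lift_run (X := Option (SP.seq p q).Q) (S := Step w H (SP.seq p q))
        (e := fun o => match o with
          | some a => some (Sum.inr a)
          | none => none) ?_ ih2)
    · intro a m h1 h2
      refine ⟨h1, h2, Sum.inl a, rfl, ?_⟩
      simp only [SP.δ]
      rcases hh : p.δ a (inSym w m.i) (m.tape m.h) with ⟨o, x⟩
      cases o <;> rfl
    · intro a m h1 h2
      refine ⟨h1, h2, Sum.inr a, rfl, ?_⟩
      simp only [SP.δ]
      rcases hh : q.δ a (inSym w m.i) (m.tape m.h) with ⟨o, x⟩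
      cases o <;> rfl
  | @ite_true t p q m m1 ht h1 ih1 =>
    have hm := h1.head_lt.1
    refine Relation.ReflTransGen.head (b := (some (some (Sum.inl p.start)), m)) ?_
      (lift_run (X := Option (SP.ite t p q).Q) (S := Step w H (SP.ite t p q))
        (e := fun o => match o with
          | some a => some (some (Sum.inl a))
          | none => none) ?_ ih1)
    · refine ⟨hm, hm, none, rfl, ?_⟩
      simp only [SP.δ, ht, apply_nop]
      rfl
    · intro a m h1 h2
      refine ⟨h1, h2, some (Sum.inl a), rfl, ?_⟩
      simp only [SP.δ]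
      rcases hh : p.δ a (inSym w m.i) (m.tape m.h) with ⟨o, x⟩
      cases o <;> rfl
  | @ite_false t p q m m1 ht h1 ih1 =>
    have hm := h1.head_lt.1
    refine Relation.ReflTransGen.head (b := (some (some (Sum.inr q.start)), m)) ?_
      (lift_run (X := Option (SP.ite t p q).Q) (S := Step w H (SP.ite t p q))
        (e := fun o => match o with
          | some a => some (some (Sum.inr a))
          | none => none) ?_ ih1)
    · refine ⟨hm, hm, none, rfl, ?_⟩
      simp only [SP.δ, ht, apply_nop]
      rfl
    · intro a m h1 h2
      refine ⟨h1, h2, some (Sum.inr a), rfl, ?_⟩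
      simp only [SP.δ]
      rcases hh : q.δ a (inSym w m.i) (m.tape m.h) with ⟨o, x⟩
      cases o <;> rfl
  | @whl_false t p m h1 ht =>
    refine Relation.ReflTransGen.single ⟨h1, h1, none, rfl, ?_⟩
    simp only [SP.δ, ht, apply_nop]
    rfl
  | @whl_true t p m m1 m2 ht h1 h2 ih1 ih2 =>
    have hm := h1.head_lt.1
    refine Relation.ReflTransGen.head (b := (some (some p.start), m)) ?_
      (Relation.ReflTransGen.trans
        (lift_run (X := Option (SP.whl t p).Q) (S := Step w H (SP.whl t p))
          (e := fun o => match o with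
            | some a => some (some a)
            | none => some none) ?_ ih1) ih2)
    · refine ⟨hm, hm, none, rfl, ?_⟩
      simp only [SP.δ, ht, apply_nop]
      rfl
    · intro a m h1 h2
      refine ⟨h1, h2, some a, rfl, ?_⟩
      simp only [SP.δ]
      rcases hh : p.δ a (inSym w m.i) (m.tape m.h) with ⟨o, x⟩
      cases o <;> rfl

/-- The machine of a program: run the program, then answer according to the scanned symbol. -/
def toLTM (p : SP σ Γ) (finΓ : Finite Γ) (blank : Γ) (ans : Γ → Bool) : LTM σ where
  Q := Option p.Q
  Γ := Γ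
  finQ := by have := p.finite_Q; infer_instance
  finΓ := finΓ
  blank := blank
  start := some p.start
  step := fun q x g => match q with
    | none => Sum.inl (ans g)
    | some a => Sum.inr ((p.δ a x g).1, (p.δ a x g).2)

theorem inL_of_program (p : SP σ Γ) (finΓ : Finite Γ) (blank : Γ) (ans : Γ → Bool)
    (A : Language σ) (C : ℕ)
    (h : ∀ w : List σ, ∃ m', Ex w (C * Nat.log 2 (w.length + 2)) p ⟨0, fun _ => blank, 0⟩ m' ∧
      (ans (m'.tape m'.h) = true ↔ w ∈ A)) : InL A := by
  refine ⟨p.toLTM finΓ blank ans, ?_, C, ?_⟩
  · intro w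
    obtain ⟨m', h1, h2⟩ := h w
    refine ⟨(none, m'), ans (m'.tape m'.h), ?_, rfl, h2⟩
    refine Relation.ReflTransGen.mono (p := fun c c' => (p.toLTM finΓ blank ans).next w c = Sum.inr c')
      ?_ _ _ h1.run
    rintro ⟨c1, c2⟩ ⟨d1, d2⟩ ⟨_, _, a, ha, hc⟩
    simp only at ha hc
    subst ha
    exact congrArg Sum.inr hc.symm
  · intro w c hc
    obtain ⟨m', h1, h2⟩ := h w
    have hrun := h1.run
    set H := C * Nat.log 2 (w.length + 2) with hH
    -- every configuration reachable from the initial one lies on the run
    have key : ∀ c0 : Option p.Q × Mem Γ,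
        Relation.ReflTransGen (Step w H p) c0 (none, m') →
        ∀ c, (p.toLTM finΓ blank ans).Reaches w c0 c → c0.2.h < H → c.2.h < H := by
      intro c0 hc0
      induction hc0 using Relation.ReflTransGen.head_induction_on with
      | refl =>
        intro c hr h0
        rcases Relation.ReflTransGen.cases_head hr with hr | ⟨d, hd, _⟩
        · rw [← hr]; exact h0
        · simp [LTM.next, toLTM] at hd
      | @head c1 c2 hs _ ih =>
        intro c hr h0
        rcases Relation.ReflTransGen.cases_head hr with hr | ⟨d, hd, hr'⟩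
        · rw [← hr]; exact h0
        · obtain ⟨g1, g2, a, ha, hcc⟩ := hs
          have : d = c2 := by
            obtain ⟨c11, c12⟩ := c1
            simp only at ha
            subst ha
            simp only [LTM.next, toLTM] at hd
            rw [hcc]
            exact (Sum.inr.inj hd).symm
          rw [this] at hr'
          exact ih c hr' g2
    exact key _ hrun c hc h1.head_lt.1

end SP

end Pool.Agent.Helper36.LS
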